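import Pool.Agent.Helper54_EXT.Phase

/-!
# The phase diagram in terms of localization only

The critical coupling `σc` and the mobility edge `E₀(σ)` are the exact thresholds for exponential
localization.
-/

set_option autoImplicit false

open MeasureTheory ProbabilityTheory Filter

open scoped ENNReal ComplexInnerProductSpace Topology

noncomputable section

namespace Pool.Agent.EXT.H54

open Pool.Agent.Anderson Pool.Agent.Loc Pool.Agent.Helper54.Bal Pool.Agent.LE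
open Pool.Agent.LE.CH (Cpl Sml)
open Pool.Agent.LE.CH.H93 (LocIn Exact)

universe u

variable {d : ℕ}

/-- almost surely for the product measure -/
theorem almost_of_PP {σ : ℝ} {p : (Site d → ℝ) → Prop} (h : ∀ᵐ V ∂(PP d (gl σ)), p V) :
    Almost.{u} d σ p := by
  intro Ω _ P _ ξ hm hlaw hind
  rw [← Pool.Agent.Mob.H42.map_eq_PP hm hlaw hind σ] at h
  have hme : AEMeasurable (fun (ω : Ω) (y : Site d) => σ * ξ y ω) P :=
    (Pool.Agent.Mob.H42.measurable_W hm σ).aemeasurable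
  filter_upwards [ae_of_ae_map hme h] with ω hω
  exact hω

/-- localization in every set (open or not) in which the zeros of `γ` have measure zero -/
theorem loc_set {σ : ℝ} (hσ : σ ≠ 0) {g : ℝ → ℝ} (hg : Continuous g) (h0 : ∀ E, 0 ≤ g E)
    (h : Almost.{u} d σ fun V => ∀ I : Set ℝ, IsOpen I →
      (LocIn V I ↔ volume {E | E ∈ I ∧ g E = 0} = 0)) {I : Set ℝ}
    (hI : volume {E | E ∈ I ∧ g E = 0} = 0) : Almost.{u} d σ fun V => LocIn V I := by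
  obtain ⟨U, hU, hS⟩ := CH.H93.smlT d σ {E | E ∈ I ∧ g E = 0} hσ hI
  refine (h.and (almost_of_PP hS)).mono fun V hV => ?_
  obtain ⟨h1, h2⟩ := hV
  have hO : IsOpen {E | 0 < g E} := isOpen_lt continuous_const hg
  have h3 : LocIn V {E | 0 < g E} := by
    refine (h1 _ hO).2 ?_
    have h4 : {E | E ∈ {E | 0 < g E} ∧ g E = 0} = ∅ := by
      ext E
      simp only [Set.mem_ofPred_eq, Set.mem_empty_iff_false, iff_false, not_and]
      exact fun hE => hE.ne'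
    rw [h4, measure_empty]
  have hcov : ∀ E ∈ I, 0 < g E ∨ ∀ k, E ∈ U k := by
    intro E hE
    rcases (h0 E).lt_or_eq with h5 | h5
    · exact Or.inl h5
    · exact Or.inr fun k => (hU k).2 ⟨hE, h5.symm⟩
  refine ⟨CH.H93.cpgT d V U {E | 0 < g E} I hO (fun k => (hU k).1) h2 (fun k E hE => ?_) h3.1,
    fun E hE φ hφ => ?_⟩
  · rcases hcov E hE with h5 | h5
    · exact Or.inl h5
    · exact Or.inr (h5 k)
  · rcases hcov E hE with h5 | h5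
    · exact h3.2 E h5 φ hφ
    · have h6 := CH.H93.nulT d V U (fun k => (hU k).1) h2 E h5 φ hφ
      refine ⟨1, 0, one_pos, fun x => ?_⟩
      rw [h6]
      simp

/-- THE PHASE DIAGRAM, in terms of localization -/
theorem edge (hf : Pool.Agent.ANE.FinStmt.{u}) (d : ℕ) (hd : 3 ≤ d) :
    ∃ (σc : ℝ) (E₀ : ℝ → ℝ), 0 < σc ∧
    (∀ σ : ℝ, σc < |σ| → Almost.{u} d σ fun V =>
      LocIn V Set.univ ∧ InSpec V Set.univ ∧ EvDense V Set.univ) ∧
    (∀ s : ℝ, s < σc → ∃ σ : ℝ, s < |σ| ∧ |σ| ≤ σc ∧ 0 < E₀ σ) ∧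
    (∀ σ : ℝ, σ ≠ 0 → 0 ≤ E₀ σ ∧
      (Almost.{u} d σ fun V =>
        LocIn V {E | E₀ σ ≤ |E|} ∧ InSpec V Set.univ ∧ EvDense V {E | E₀ σ < |E|}) ∧
      ∀ e : ℝ, 0 ≤ e → e < E₀ σ → Almost.{u} d σ fun V => ¬ LocIn V {E | e < |E|}) ∧
    (∀ a : ℝ, 0 < a → ∃ s : ℝ, 0 < s ∧ ∀ σ : ℝ, σ ≠ 0 → |σ| ≤ s → 2 * d - a ≤ E₀ σ ∧
      Almost.{u} d σ fun V => NoEv V {E | |E| < 2 * d - a}) ∧
    (∃ c C : ℝ, 0 < c ∧ 0 < C ∧ ∀ σ : ℝ, σ ≠ 0 → |σ| ≤ c →
      E₀ σ ≤ 2 * d + watson d * σ ^ 2 + C * |σ| ^ (2 + 1 / (24 * d : ℝ))) := by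
  have hd3 : (3 : ℝ) ≤ d := by exact_mod_cast hd
  obtain ⟨σ₁, E₁, γ, hσ₁, -, p2, p3, p4, p5, p6, p7, -, p9, p10⟩ := phase hf d hd
  have hcont : ∀ σ : ℝ, σ ≠ 0 → Continuous (γ σ) := fun σ hσ =>
    continuous_iff_continuousAt.2 fun E =>
      (p6 σ hσ E).comp (f := fun E : ℝ => (σ, E))
        (continuous_const.prodMk continuous_id).continuousAt
  have hiff : ∀ σ : ℝ, σ ≠ 0 → Almost.{u} d σ fun V => ∀ I : Set ℝ, IsOpen I →
      (LocIn V I ↔ volume {E | E ∈ I ∧ γ σ E = 0} = 0) := fun σ hσ =>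
    (p10 σ hσ).mono fun V hV => hV.2
  -- the thresholds
  obtain ⟨S, hS⟩ : ∃ S : ℝ → Set ℝ,
      ∀ σ, S σ = {e : ℝ | 0 ≤ e ∧ volume {E | e < |E| ∧ γ σ E = 0} = 0} := ⟨_, fun _ => rfl⟩
  obtain ⟨E₀, hE₀⟩ : ∃ E₀ : ℝ → ℝ, ∀ σ, E₀ σ = sInf (S σ) := ⟨_, fun _ => rfl⟩
  have hbdd : ∀ σ, BddBelow (S σ) := fun σ => ⟨0, fun e he => by
    rw [hS] at he
    exact he.1⟩
  have hmem : ∀ σ : ℝ, σ ≠ 0 → E₁ σ ∈ S σ := by
    intro σ hσ
    rw [hS]
    refine ⟨(p2 σ hσ).1, ?_⟩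
    have h3 : {E | E₁ σ < |E| ∧ γ σ E = 0} = ∅ := by
      ext E
      simp only [Set.mem_ofPred_eq, Set.mem_empty_iff_false, iff_false, not_and]
      exact fun hE => ((p9 σ hσ).1 E hE).ne'
    rw [h3, measure_empty]
  have hnn : ∀ σ, 0 ≤ E₀ σ := fun σ => by
    rw [hE₀]
    exact Real.sInf_nonneg fun e he => by
      rw [hS] at he
      exact he.1
  have hle : ∀ σ : ℝ, σ ≠ 0 → E₀ σ ≤ E₁ σ := fun σ hσ => by
    rw [hE₀]
    exact csInf_le (hbdd σ) (hmem σ hσ)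
  have hnull : ∀ σ : ℝ, σ ≠ 0 → volume {E | E₀ σ < |E| ∧ γ σ E = 0} = 0 := by
    intro σ hσ
    have h3 : {E | E₀ σ < |E| ∧ γ σ E = 0} ⊆
        ⋃ n : ℕ, {E | E₀ σ + 1 / ((n : ℝ) + 1) < |E| ∧ γ σ E = 0} := by
      intro E hE
      obtain ⟨n, hn⟩ := exists_nat_one_div_lt (show 0 < |E| - E₀ σ by linarith only [hE.1])
      refine Set.mem_iUnion.2 ⟨n, ?_, hE.2⟩
      linarith only [hn]
    refine measure_mono_null h3 (measure_iUnion_null fun n => ?_)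
    have hlt : sInf (S σ) < E₀ σ + 1 / ((n : ℝ) + 1) := by
      rw [← hE₀]
      have : 0 < 1 / ((n : ℝ) + 1) := by positivity
      linarith only [this]
    obtain ⟨e, he, hlt'⟩ := exists_lt_of_csInf_lt ⟨_, hmem σ hσ⟩ hlt
    rw [hS] at he
    have h6 : {E | E₀ σ + 1 / ((n : ℝ) + 1) < |E| ∧ γ σ E = 0} ⊆ {E | e < |E| ∧ γ σ E = 0} :=
      fun E hE => ⟨hlt'.trans hE.1, hE.2⟩
    exact measure_mono_null h6 he.2
  have hnull' : ∀ σ : ℝ, σ ≠ 0 → volume {E | E ∈ {E | E₀ σ ≤ |E|} ∧ γ σ E = 0} = 0 := by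
    intro σ hσ
    have h3 : {E | E ∈ {E | E₀ σ ≤ |E|} ∧ γ σ E = 0} ⊆
        {E | E₀ σ < |E| ∧ γ σ E = 0} ∪ {E₀ σ, -E₀ σ} := by
      intro E hE
      rcases (show E₀ σ ≤ |E| from hE.1).lt_or_eq with h4 | h4
      · exact Or.inl ⟨h4, hE.2⟩
      · refine Or.inr ?_
        rcases abs_eq (hnn σ) |>.1 h4.symm with h5 | h5
        · exact Or.inl h5
        · exact Or.inr h5
    refine measure_mono_null h3 (measure_union_null (hnull σ hσ) ?_)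
    exact (Set.toFinite _).measure_zero _
  have hpos : ∀ σ e : ℝ, 0 ≤ e → e < E₀ σ → volume {E | e < |E| ∧ γ σ E = 0} ≠ 0 := by
    intro σ e he hlt hv
    rw [hE₀] at hlt
    refine notMem_of_lt_csInf hlt (hbdd σ) ?_
    rw [hS]
    exact ⟨he, hv⟩
  -- localization above the edge
  have hloc : ∀ σ : ℝ, σ ≠ 0 → Almost.{u} d σ fun V =>
      LocIn V {E | E₀ σ ≤ |E|} ∧ InSpec V Set.univ ∧ EvDense V {E | E₀ σ < |E|} := by
    intro σ hσ
    refine ((loc_set hσ (hcont σ hσ) (fun E => (p5 σ hσ E).1) (hiff σ hσ) (hnull' σ hσ)).and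
      (almost_spec σ (by omega) hσ)).mono fun V hV => ?_
    have h6 : {E : ℝ | E₀ σ < |E|} ⊆ {E | E₀ σ ≤ |E|} := fun E (hE : E₀ σ < |E|) => hE.le
    exact ⟨hV.1, hV.2, ev_dense (isOpen_lt continuous_const continuous_abs)
      (CH.H93.locIn_mono hV.1 h6) fun E _ ε hε => hV.2 E (Set.mem_univ E) ε hε⟩
  -- the lower bound
  have hlow : ∀ a : ℝ, 0 < a → ∃ s : ℝ, 0 < s ∧ ∀ σ : ℝ, σ ≠ 0 → |σ| ≤ s → 2 * d - a ≤ E₀ σ ∧
      Almost.{u} d σ fun V => NoEv V {E | |E| < 2 * d - a} := by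
    intro a ha
    obtain ⟨s, hs, h⟩ := p3 a ha
    refine ⟨s, hs, fun σ hσ hσs => ?_⟩
    obtain ⟨-, h1, h2⟩ := h σ hσ hσs
    refine ⟨?_, h2⟩
    by_contra hcon
    push Not at hcon
    have h3 : Set.Ioo (E₀ σ) (2 * d - a) ⊆ {E | E₀ σ < |E| ∧ γ σ E = 0} := by
      intro E hE
      have hE0 : 0 ≤ E := (hnn σ).trans hE.1.le
      refine ⟨?_, h1 E ?_⟩
      · rw [abs_of_nonneg hE0]
        exact hE.1
      · rw [abs_of_nonneg hE0]
        exact hE.2.le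
    have h4 := measure_mono_null h3 (hnull σ hσ)
    rw [Real.volume_Ioo, ENNReal.ofReal_eq_zero] at h4
    linarith only [h4, hcon]
  -- the critical coupling
  obtain ⟨K, hK⟩ : ∃ K : Set ℝ, K = {s : ℝ | ∃ σ : ℝ, σ ≠ 0 ∧ s = |σ| ∧ 0 < E₀ σ} := ⟨_, rfl⟩
  have hKb : BddAbove K := by
    refine ⟨σ₁, fun s hs => ?_⟩
    rw [hK] at hs
    obtain ⟨σ, hσ, rfl, h1⟩ := hs
    by_contra hcon
    push Not at hcon
    have h2 : (0 : ℝ) ∈ S σ := by
      rw [hS]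
      refine ⟨le_rfl, ?_⟩
      have h3 : {E | 0 < |E| ∧ γ σ E = 0} = ∅ := by
        ext E
        simp only [Set.mem_ofPred_eq, Set.mem_empty_iff_false, iff_false, not_and]
        exact fun _ => (p7 σ hcon E).ne'
      rw [h3, measure_empty]
    have h3 := csInf_le (hbdd σ) h2
    rw [← hE₀] at h3
    linarith only [h1, h3]
  obtain ⟨s₁, hs₁, hs₁'⟩ := hlow 1 one_pos
  have hKs : s₁ ∈ K := by
    rw [hK]
    refine ⟨s₁, hs₁.ne', (abs_of_pos hs₁).symm, ?_⟩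
    have := (hs₁' s₁ hs₁.ne' (abs_of_pos hs₁).le).1
    linarith only [this, hd3]
  have hσc : 0 < sSup K := lt_of_lt_of_le hs₁ (le_csSup hKb hKs)
  refine ⟨sSup K, E₀, hσc, ?_, ?_, fun σ hσ => ⟨hnn σ, hloc σ hσ, ?_⟩, hlow, ?_⟩
  · intro σ hσ
    have hσ0 : σ ≠ 0 := by
      rintro rfl
      rw [abs_zero] at hσ
      linarith only [hσ, hσc]
    have hE : E₀ σ = 0 := by
      refine le_antisymm ?_ (hnn σ)
      by_contra hcon
      push Not at hcon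
      refine absurd (le_csSup hKb (a := |σ|) ?_) (not_le.2 hσ)
      rw [hK]
      exact ⟨σ, hσ0, rfl, hcon⟩
    refine (hloc σ hσ0).mono fun V hV => ?_
    have h1 : {E : ℝ | E₀ σ ≤ |E|} = Set.univ := by
      ext E
      simp only [Set.mem_ofPred_eq, Set.mem_univ, iff_true, hE]
      exact abs_nonneg E
    rw [h1] at hV
    exact ⟨hV.1, hV.2.1, ev_dense isOpen_univ hV.1 hV.2.1⟩
  · intro s hs
    obtain ⟨s', hs', hlt⟩ := exists_lt_of_lt_csSup ⟨s₁, hKs⟩ hs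
    have hle' := le_csSup hKb hs'
    rw [hK] at hs'
    obtain ⟨σ, -, rfl, h1⟩ := hs'
    exact ⟨σ, hlt, hle', h1⟩
  · intro e he hlt
    refine (hiff σ hσ).mono fun V hV hcon => ?_
    exact hpos σ e he hlt ((hV _ (isOpen_lt continuous_const continuous_abs)).1 hcon)
  · obtain ⟨c, C, hc, hC, h⟩ := p4
    exact ⟨c, C, hc, hC, fun σ hσ hσc => (hle σ hσ).trans (h σ hσ hσc)⟩

end Pool.Agent.EXT.H54
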