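import Pool.Agent.Helper54_EXT.Edge

/-!
# MP_1906c1_mp: continuous spectrum at weak disorder, the mobility edge

For `H = Δ + σ ξ` on `ℤ^d`, `d ≥ 3`, `ξ` iid standard Gaussian, there are a critical coupling
`0 < σc < ∞` and a mobility edge `E₀(σ) ≥ 0`, `σ ≠ 0`, such that, almost surely (the spectrum is the
whole line):

* (1) if `|σ| > σc`, the spectrum is pure point, the eigenvalues are dense and all the eigenfunctions
  decay exponentially;
* (2a) for every `σ ≠ 0` there is exponential localization in `|E| ≥ E₀(σ)`, and `E₀(σ)` is optimal: for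
  `0 ≤ e < E₀(σ)` there is no exponential localization in `|E| > e`. The number `σc` is optimal too:
  arbitrarily close to it, or at it, there are `|σ| ≤ σc` with `E₀(σ) > 0`, no localization on the line;
* (2b) at weak disorder there is continuous spectrum: for each `a > 0` there is `s > 0` such that for
  `0 < |σ| ≤ s` there is no eigenvalue in `|E| < 2 d - a`, and
  `2 d - a ≤ E₀(σ) ≤ 2 d + G σ² + C |σ|^(2 + 1 / (24 d))`, `G = (2 d - Δ)⁻¹(0, 0)`.
-/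

set_option autoImplicit false

open MeasureTheory ProbabilityTheory Filter

open scoped ENNReal InnerProductSpace Topology

noncomputable section

namespace Pool.Agent.EXT.H54.Handin

open Pool.Agent.Anderson Pool.Agent.Loc

universe u

variable {d : ℕ}

/-- Almost surely `p V` holds for the potential `V = σ ξ`, `ξ(y)`, `y ∈ ℤ^d`, independent standard
Gaussians (on any probability space). -/
def Almost.{v} (d : ℕ) (σ : ℝ) (p : (Site d → ℝ) → Prop) : Prop :=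
  ∀ (Ω : Type v) [MeasurableSpace Ω] (P : Measure Ω) [IsProbabilityMeasure P]
    (ξ : Site d → Ω → ℝ), (∀ y, Measurable (ξ y)) → (∀ y, P.map (ξ y) = gaussianReal 0 1) →
    iIndepFun ξ P → ∀ᵐ ω ∂P, p fun x => σ * ξ x ω

/-- `E` is in the spectrum of `H = Δ + V`: for every `ε > 0` there is a unit vector `u` of finite
support with `‖(H - E) u‖ ≤ ε`. -/
def InSpectrum (V : Site d → ℝ) (E : ℝ) : Prop :=
  ∀ ε : ℝ, 0 < ε → ∃ u w : L2 d, ‖u‖ = 1 ∧ {x : Site d | u x ≠ 0}.Finite ∧ ‖w‖ ≤ ε ∧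
    ∀ x, w x = lap u x + (V x : ℂ) * u x - (E : ℂ) * u x

/-- `H = Δ + V` is exponentially localized in the set `I` of energies: the spectrum in `I` is pure
point (for `[a - r, a + r] ⊆ I` a vector `u ∈ ℓ²` with `w = H u ∈ ℓ²` which is orthogonal to all
the eigenfunctions with eigenvalues in `[a - r, a + r]` satisfies `‖(H - a) u‖ ≥ r ‖u‖`), and all the
eigenfunctions with eigenvalues in `I` decay exponentially. -/
def Localized (V : Site d → ℝ) (I : Set ℝ) : Prop :=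
  (∀ a r : ℝ, Set.Icc (a - r) (a + r) ⊆ I → ∀ u w : L2 d,
    (∀ x, w x = lap u x + (V x : ℂ) * u x) →
    (∀ (E : ℝ) (φ : L2 d), E ∈ Set.Icc (a - r) (a + r) → IsEigen V E φ → ⟪φ, u⟫_ℂ = 0) →
    r * ‖u‖ ≤ ‖w - (a : ℂ) • u‖) ∧
  ∀ E ∈ I, ∀ φ : L2 d, IsEigen V E φ →
    ∃ m B : ℝ, 0 < m ∧ ∀ x, ‖φ x‖ ≤ B * Real.exp (-m * sd 0 x)

/-- The eigenvalues of `H = Δ + V` are dense in the line. -/
def DenseEigenvalues (V : Site d → ℝ) : Prop :=
  ∀ E r : ℝ, 0 < r → ∃ E' : ℝ, |E' - E| < r ∧ ∃ φ : L2 d, φ ≠ 0 ∧ IsEigen V E' φ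

/-- `H = Δ + V` has no eigenvalue in `I`. -/
def NoEigenvalue (V : Site d → ℝ) (I : Set ℝ) : Prop :=
  ∀ E ∈ I, ∀ φ : L2 d, IsEigen V E φ → φ = 0

/-- The number of nearest neighbour walks on `ℤ^d` with `n` steps from `0` to `x`. -/
def walks : ℕ → Site d → ℕ
  | 0, x => if x = 0 then 1 else 0
  | n + 1, x => ∑ i : Fin d, (walks n (x + Pi.single i 1) + walks n (x - Pi.single i 1))

/-- The Green function of the lattice, `(2 d - Δ)⁻¹(0, 0) = ∑ₙ walks n 0 / (2 d)^(n+1)`. -/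
def latticeGreen (d : ℕ) : ℝ := ∑' n : ℕ, (walks n (0 : Site d) : ℝ) / (2 * d) ^ (n + 1)

theorem walks_eq : ∀ (n : ℕ) (x : Site d), walks n x = Pool.Agent.Loc.walks n x
  | 0, _ => rfl
  | n + 1, x => by
    unfold walks Pool.Agent.Loc.walks
    exact Finset.sum_congr rfl fun i _ => by rw [walks_eq n, walks_eq n]

theorem latticeGreen_eq (d : ℕ) : latticeGreen d = watson d := by
  unfold latticeGreen watson
  exact tsum_congr fun n => by rw [walks_eq]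

theorem inSpectrum_of {V : Site d → ℝ} (h : Pool.Agent.EXT.H54.InSpec V Set.univ) (E : ℝ) :
    InSpectrum V E := by
  intro ε hε
  obtain ⟨φ, h1, h2, h3⟩ := h E (Set.mem_univ E) ε hε
  obtain ⟨-, r, h4, h5⟩ := h3
  exact ⟨φ, r, h1, h2, h4, fun x => (h5 x).symm⟩

/-- Let `d ≥ 3`, `H = Δ + σ ξ` with `ξ(y)`, `y ∈ ℤ^d`, independent standard Gaussians. There are
`σc > 0` and a function `E₀` such that:

* for every `σ ≠ 0`, almost surely, the spectrum of `H` is the whole line;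
* (1) if `|σ| > σc`, almost surely, `H` is exponentially localized at all energies and its eigenvalues
  are dense in the line;
* (2a) for every `σ ≠ 0`: `E₀(σ) ≥ 0`, almost surely `H` is exponentially localized in
  `|E| ≥ E₀(σ)`, and for `0 ≤ e < E₀(σ)`, almost surely, `H` is not exponentially localized in
  `|E| > e`; and for every `s < σc` there is `σ` with `s < |σ| ≤ σc` and `E₀(σ) > 0`;
* (2b) for every `a > 0` there is `s > 0` such that for `0 < |σ| ≤ s`: `2 d - a ≤ E₀(σ)`, and almost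
  surely `H` has no eigenvalue in `|E| < 2 d - a`: the spectrum is continuous there;
* there are `c, C > 0` such that `E₀(σ) ≤ 2 d + G σ² + C |σ|^(2 + 1 / (24 d))` for `0 < |σ| ≤ c`,
  `G = (2 d - Δ)⁻¹(0, 0)`. -/
theorem result_of (hf : Pool.Agent.ANE.FinStmt.{u}) (d : ℕ) (hd : 3 ≤ d) :
    ∃ (σc : ℝ) (E₀ : ℝ → ℝ), 0 < σc ∧
    (∀ σ : ℝ, σ ≠ 0 → Almost.{u} d σ fun V => ∀ E : ℝ, InSpectrum V E) ∧
    (∀ σ : ℝ, σc < |σ| → Almost.{u} d σ fun V =>
      Localized V Set.univ ∧ DenseEigenvalues V) ∧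
    (∀ σ : ℝ, σ ≠ 0 → 0 ≤ E₀ σ ∧ (Almost.{u} d σ fun V => Localized V {E | E₀ σ ≤ |E|}) ∧
      ∀ e : ℝ, 0 ≤ e → e < E₀ σ → Almost.{u} d σ fun V => ¬ Localized V {E | e < |E|}) ∧
    (∀ s : ℝ, s < σc → ∃ σ : ℝ, s < |σ| ∧ |σ| ≤ σc ∧ 0 < E₀ σ) ∧
    (∀ a : ℝ, 0 < a → ∃ s : ℝ, 0 < s ∧ ∀ σ : ℝ, σ ≠ 0 → |σ| ≤ s → 2 * d - a ≤ E₀ σ ∧
      Almost.{u} d σ fun V => NoEigenvalue V {E | |E| < 2 * d - a}) ∧
    ∃ c C : ℝ, 0 < c ∧ 0 < C ∧ ∀ σ : ℝ, σ ≠ 0 → |σ| ≤ c →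
      E₀ σ ≤ 2 * d + latticeGreen d * σ ^ 2 + C * |σ| ^ (2 + 1 / (24 * d : ℝ)) := by
  obtain ⟨σc, E₀, h0, h1, h2, h3, h4, h5⟩ := edge hf d hd
  refine ⟨σc, E₀, h0, fun σ hσ => ?_, fun σ hσ => ?_, fun σ hσ => ?_, h2, h4, ?_⟩
  · intro Ω _ P _ ξ hm hlaw hind
    filter_upwards [(h3 σ hσ).2.1 Ω P ξ hm hlaw hind] with ω hω
    exact inSpectrum_of hω.2.1
  · intro Ω _ P _ ξ hm hlaw hind
    filter_upwards [h1 σ hσ Ω P ξ hm hlaw hind] with ω hω
    exact ⟨hω.1, fun E r hr => hω.2.2 E (Set.mem_univ E) r hr⟩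
  · obtain ⟨g1, g2, g3⟩ := h3 σ hσ
    refine ⟨g1, ?_, g3⟩
    intro Ω _ P _ ξ hm hlaw hind
    filter_upwards [g2 Ω P ξ hm hlaw hind] with ω hω
    exact hω.1
  · rw [latticeGreen_eq]
    exact h5

end Pool.Agent.EXT.H54.Handin
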