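import Pool.Agent.Helper42_LE.MainJ
import Pool.Agent.Helper93_LEC.AllC
import Pool.Agent.Helper96_LEC.Sym
import Pool.Agent.Helper93_LSF3.All3
import Pool.Agent.Helper93_LQD.All
import Pool.Agent.ANE.Stmts

/-!
# Continuous spectrum in the bulk and localization outside: the assembly

From `ANE.FinStmt` (no eigenvalues in `|E| < 2 d - a` at weak disorder) and the earlier results about
the Lyapunov exponent: the mobility edge `E₁(σ)`.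
-/

set_option autoImplicit false

open MeasureTheory ProbabilityTheory Filter

open scoped ENNReal ComplexInnerProductSpace Topology

noncomputable section

namespace Pool.Agent.EXT.H54

open Pool.Agent.Anderson Pool.Agent.Loc Pool.Agent.Helper54.Bal Pool.Agent.LE

universe u

/-- the window is at most `K |σ|³` -/
theorem window_cube (d : ℕ) {c σ : ℝ} (hc : 0 < c) (hc1 : c ≤ 1) (hσ : σ ≠ 0) (hσ1 : |σ| ≤ 1) :
    LOC.window d c σ ≤ 6 / c ^ 3 * |σ| ^ 3 := by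
  have hσ0 : 0 < |σ| := abs_pos.2 hσ
  obtain ⟨x, hx⟩ : ∃ x, x = |σ| := ⟨_, rfl⟩
  have hc3 : c ^ 3 ≤ c := by
    calc c ^ 3 = c * c ^ 2 := by ring
      _ ≤ c * 1 := mul_le_mul_of_nonneg_left (pow_le_one₀ hc.le hc1) hc.le
      _ = c := mul_one c
  have hc2 : c ^ 3 ≤ c ^ 2 := by
    calc c ^ 3 = c ^ 2 * c := by ring
      _ ≤ c ^ 2 * 1 := mul_le_mul_of_nonneg_left hc1 (by positivity)
      _ = c ^ 2 := mul_one _
  unfold LOC.window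
  rw [← sq_abs σ, ← hx]
  have hσ4 : σ ^ 4 = x ^ 4 := by
    rw [hx, ← abs_pow]
    exact (abs_of_nonneg (by positivity)).symm
  rw [hσ4]
  rw [← hx] at hσ0 hσ1
  split_ifs
  · have h1 : 1 + Real.log (1 / x) ≤ 2 * (Real.sqrt x)⁻¹ := by
      have h2 : Real.log (1 / x) = 2 * Real.log (Real.sqrt x)⁻¹ := by
        rw [Real.log_inv, Real.log_sqrt hσ0.le, one_div, Real.log_inv]
        ring
      have h3 := Real.log_le_sub_one_of_pos (show 0 < (Real.sqrt x)⁻¹ by positivity)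
      rw [h2]
      linarith only [h3]
    have h0 : 0 ≤ 1 + Real.log (1 / x) := by
      have : 0 ≤ Real.log (1 / x) := Real.log_nonneg (by
        rw [le_div_iff₀ hσ0]
        linarith only [hσ1])
      linarith only [this]
    have h4 : (1 + Real.log (1 / x)) ^ 2 ≤ 4 / x := by
      have h5 := pow_le_pow_left₀ h0 h1 2
      rw [mul_pow, inv_pow, Real.sq_sqrt hσ0.le] at h5
      calc (1 + Real.log (1 / x)) ^ 2 ≤ 2 ^ 2 * x⁻¹ := h5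
        _ = 4 / x := by rw [div_eq_mul_inv]; norm_num
    calc x ^ 4 * (1 + Real.log (1 / x)) ^ 2 / c ≤ x ^ 4 * (4 / x) / c := by gcongr
      _ = 4 / c * x ^ 3 := by field_simp
      _ ≤ 6 / c ^ 3 * x ^ 3 := by gcongr; norm_num
  · have h1 := Real.pow_div_factorial_le_exp (c / x) (by positivity) 3
    have h2 : (0 : ℝ) < (c / x) ^ 3 / (Nat.factorial 3 : ℕ) := by positivity
    have h3 : Real.exp (-c / x) ≤ ((c / x) ^ 3 / (Nat.factorial 3 : ℕ))⁻¹ := by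
      rw [neg_div, Real.exp_neg]
      exact inv_anti₀ h2 h1
    refine h3.trans (le_of_eq ?_)
    have e5 : ((Nat.factorial 3 : ℕ) : ℝ) = 6 := by norm_num [Nat.factorial]
    rw [e5]
    field_simp
  · have h1 := Real.pow_div_factorial_le_exp (c / x ^ 2) (by positivity) 3
    have h2 : (0 : ℝ) < (c / x ^ 2) ^ 3 / (Nat.factorial 3 : ℕ) := by positivity
    have h3 : Real.exp (-c / x ^ 2) ≤ ((c / x ^ 2) ^ 3 / (Nat.factorial 3 : ℕ))⁻¹ := by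
      rw [neg_div, Real.exp_neg]
      exact inv_anti₀ h2 h1
    refine h3.trans ?_
    have e5 : ((Nat.factorial 3 : ℕ) : ℝ) = 6 := by norm_num [Nat.factorial]
    rw [e5]
    have e6 : ((c / x ^ 2) ^ 3 / 6)⁻¹ = 6 / c ^ 3 * x ^ 6 := by field_simp
    rw [e6]
    have h7 : x ^ 6 ≤ x ^ 3 := pow_le_pow_of_le_one hσ0.le hσ1 (by norm_num)
    gcongr

theorem window_pos (d : ℕ) {c σ : ℝ} (hc : 0 < c) (hσ : σ ≠ 0) (hσ1 : |σ| ≤ 1) :
    0 < LOC.window d c σ := by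
  have hσ0 : 0 < |σ| := abs_pos.2 hσ
  unfold LOC.window
  split_ifs
  · have : 0 ≤ Real.log (1 / |σ|) := Real.log_nonneg (by
      rw [le_div_iff₀ hσ0]
      linarith only [hσ1])
    positivity
  · exact Real.exp_pos _
  · exact Real.exp_pos _

/-- a closed-ball argument: if `γ` were positive at an energy of the continuous spectrum, there would
be an eigenvalue near it -/
theorem gamma_zero {d : ℕ} {V : Site d → ℝ} {E r : ℝ} (hr : 0 < r)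
    (hsp : ∀ ε : ℝ, 0 < ε → ∃ φ : L2 d, ‖φ‖ = 1 ∧ {x : Site d | φ x ≠ 0}.Finite ∧ IsQuasi V ε E φ)
    (hno : ∀ E' : ℝ, E' ∈ Set.Icc (E - r) (E + r) → ∀ φ : L2 d, IsEigen V E' φ → φ = 0)
    (hcomp : ∀ u w : L2 d, (∀ x, w x = lap u x + (V x : ℂ) * u x) →
      (∀ (E' : ℝ) (ψ : L2 d), E' ∈ Set.Icc (E - r) (E + r) → IsEigen V E' ψ → ⟪ψ, u⟫ = 0) →
      r * ‖u‖ ≤ ‖w - (E : ℂ) • u‖) : False := by
  obtain ⟨φ, hφ, -, -, ρ, hρ, hρ'⟩ := hsp (r / 2) (by linarith only [hr])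
  have h1 := hcomp φ (ρ + (E : ℂ) • φ) (fun x => by
    have h2 := hρ' x
    have h3 : (ρ + (E : ℂ) • φ : L2 d) x = ρ x + (E : ℂ) * φ x := rfl
    rw [h3, ← h2]
    ring) (fun E' ψ hE' hψ => by
    rw [hno E' hE' ψ hψ]
    exact inner_zero_left _)
  rw [add_sub_cancel_right, hφ] at h1
  linarith only [h1, hρ, hr]

/-- a probability space with independent standard Gaussians -/
theorem prob_space (d : ℕ) : ∃ (Ω : Type u) (_ : MeasurableSpace Ω)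
    (P : Measure Ω) (_ : IsProbabilityMeasure P) (ξ : Site d → Ω → ℝ),
    (∀ y, Measurable (ξ y)) ∧ (∀ y, P.map (ξ y) = gaussianReal 0 1) ∧ iIndepFun ξ P := by
  obtain ⟨μ, hμ⟩ : ∃ μ : Measure ((Fin d → ℤ) → ℝ),
    μ = Measure.infinitePi fun _ : Fin d → ℤ => gaussianReal 0 1 := ⟨_, rfl⟩
  have hprob : IsProbabilityMeasure μ := by rw [hμ]; infer_instance
  have hup : Measurable (ULift.up : ((Fin d → ℤ) → ℝ) → ULift.{u} ((Fin d → ℤ) → ℝ)) :=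
    measurable_up
  have hdown : Measurable (ULift.down : ULift.{u} ((Fin d → ℤ) → ℝ) → ((Fin d → ℤ) → ℝ)) :=
    measurable_down
  have hξ : ∀ y : Fin d → ℤ, Measurable fun ω : ULift.{u} ((Fin d → ℤ) → ℝ) => ω.down y :=
    fun y => (measurable_pi_apply y).comp hdown
  have hlaw : ∀ y : Fin d → ℤ, (μ.map (ULift.up.{u})).map (fun ω => ω.down y) = gaussianReal 0 1 := by
    intro y
    rw [Measure.map_map (hξ y) hup]
    have : ((fun ω : ULift.{u} ((Fin d → ℤ) → ℝ) => ω.down y) ∘ ULift.up) = fun ξ => ξ y := rfl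
    rw [this, hμ]
    exact (measurePreserving_eval_infinitePi (fun _ : Fin d → ℤ => gaussianReal 0 1) y).map_eq
  have hP : IsProbabilityMeasure (μ.map (ULift.up.{u})) :=
    Measure.isProbabilityMeasure_map hup.aemeasurable
  refine ⟨ULift.{u} ((Fin d → ℤ) → ℝ), inferInstance, μ.map ULift.up, hP,
    fun y ω => ω.down y, hξ, hlaw, ?_⟩
  rw [iIndepFun_iff_map_fun_eq_infinitePi_map hξ]
  simp only [hlaw]
  rw [Measure.map_map (by fun_prop) hup]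
  have : ((fun (ω : ULift.{u} ((Fin d → ℤ) → ℝ)) (i : Fin d → ℤ) => ω.down i) ∘ ULift.up) = id := rfl
  rw [this, Measure.map_id, hμ]

/-- the conclusions for one `σ` with `γ` -/
def AtSigma.{v} (d : ℕ) (γ : ℝ → ℝ) (σ : ℝ) : Prop :=
  ∀ (Ω : Type v) [MeasurableSpace Ω] (P : Measure Ω) [IsProbabilityMeasure P]
    (ξ : Site d → Ω → ℝ), (∀ y, Measurable (ξ y)) →
    (∀ y, P.map (ξ y) = gaussianReal 0 1) → iIndepFun ξ P →
    (∀ᵐ ω ∂P, ∀ c r : ℝ, Set.Icc (c - r) (c + r) ⊆ {E | 0 < γ E} → ∀ u w : L2 d,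
      (∀ x, w x = lap u x + ((σ * ξ x ω : ℝ) : ℂ) * u x) →
      (∀ (E : ℝ) (ψ : L2 d), E ∈ Set.Icc (c - r) (c + r) →
        IsEigen (fun x => σ * ξ x ω) E ψ → ⟪ψ, u⟫ = 0) →
      r * ‖u‖ ≤ ‖w - (c : ℂ) • u‖) ∧
    (∀ᵐ ω ∂P, ∀ (E : ℝ) (ψ : Site d → ℂ), (∃ x, ψ x ≠ 0) →
      (∃ (B : ℝ) (k : ℕ), ∀ x, ‖ψ x‖ ≤ B * (1 + (sd 0 x : ℝ)) ^ k) →
      (∀ x, lap ψ x + ((σ * ξ x ω : ℝ) : ℂ) * ψ x = (E : ℂ) * ψ x) →
      (∀ m : ℝ, m < γ E → ∃ B : ℝ, ∀ x, ‖ψ x‖ ≤ B * Real.exp (-m * sd 0 x)) ∧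
      ∀ m B : ℝ, γ E < m → ¬ ∀ x, ‖ψ x‖ ≤ B * Real.exp (-m * sd 0 x)) ∧
    (∀ a b β k : ℝ, Set.Icc a b ⊆ {E | 0 < γ E} → 0 < β → ∃ T₀ : ℝ, ∀ T : ℝ, T₀ ≤ T →
      ∫⁻ ω, Pool.Agent.Mob.spread (fun x => σ * ξ x ω) T (T ^ β) (Set.Ioo a b) ∂P ≤
        ENNReal.ofReal (T ^ (-k))) ∧
    (∀ a b δ : ℝ, ¬ Set.Ioo a b ⊆ {E | 0 < γ E} → 0 < δ → δ ≤ 1 → ∃ T₀ : ℝ, ∀ T : ℝ,
      T₀ ≤ T → ENNReal.ofReal (T ^ (-6 : ℝ)) ≤
        ∫⁻ ω, Pool.Agent.Mob.spread (fun x => σ * ξ x ω) T (T ^ (1 / ((d : ℝ) + δ)))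
          (Set.Ioo a b) ∂P)

/-- THE MOBILITY EDGE AT WEAK DISORDER -/
theorem ext (hf : Pool.Agent.ANE.FinStmt.{u}) (d : ℕ) (hd : 3 ≤ d) :
    ∃ (γ : ℝ → ℝ → ℝ) (σc : ℝ) (E₁ : ℝ → ℝ), 0 < σc ∧
    (∀ σ : ℝ, σ ≠ 0 → ∀ E : ℝ, 0 ≤ γ σ E ∧ ∀ ε : ℝ, 0 < ε →
      Tendsto (H93.pr d σ E (γ σ E + ε)) atTop (𝓝 0) ∧
      Tendsto (H93.pr d σ E (γ σ E - ε)) atTop (𝓝 1)) ∧
    (∀ σ : ℝ, σ ≠ 0 → ∀ E : ℝ, ContinuousAt (fun q : ℝ × ℝ => γ q.1 q.2) (σ, E)) ∧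
    (∀ σ : ℝ, σc < |σ| → ∀ E : ℝ, 0 < γ σ E) ∧ (∃ E : ℝ, γ σc E = 0) ∧
    (∃ c C : ℝ, 0 < c ∧ 0 < C ∧ ∀ σ : ℝ, σ ≠ 0 → |σ| ≤ c →
      E₁ σ ≤ 2 * d + watson d * σ ^ 2 + C * |σ| ^ (2 + 1 / (24 * d : ℝ))) ∧
    (∀ a : ℝ, 0 < a → ∃ s₀ : ℝ, 0 < s₀ ∧ ∀ σ : ℝ, σ ≠ 0 → |σ| ≤ s₀ →
      2 * d - a ≤ E₁ σ ∧ γ σ (E₁ σ) = 0 ∧ γ σ (-E₁ σ) = 0 ∧
      (∀ E : ℝ, |E| ≤ 2 * d - a → γ σ E = 0) ∧ (∀ E : ℝ, E₁ σ < |E| → 0 < γ σ E) ∧
      ∀ (Ω : Type u) [MeasurableSpace Ω] (P : Measure Ω) [IsProbabilityMeasure P]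
        (ξ : Site d → Ω → ℝ), (∀ y, Measurable (ξ y)) →
        (∀ y, P.map (ξ y) = gaussianReal 0 1) → iIndepFun ξ P → ∀ᵐ ω ∂P,
          (∀ E ε : ℝ, 0 < ε → ∃ φ : L2 d, ‖φ‖ = 1 ∧ {x : Site d | φ x ≠ 0}.Finite ∧
            IsQuasi (fun y => σ * ξ y ω) ε E φ) ∧
          ∀ E : ℝ, |E| < 2 * d - a → ∀ φ : L2 d, IsEigen (fun y => σ * ξ y ω) E φ → φ = 0) ∧
    ∀ σ : ℝ, σ ≠ 0 → AtSigma.{u} d (γ σ) σ := by
  have hd1 : 1 ≤ d := by omega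
  have hd3 : (3 : ℝ) ≤ d := by exact_mod_cast hd
  obtain ⟨γ, h0, -, hcrit, h3⟩ := H42J.mainJ.{u} H96.mainGT H96.smpT H15.smn H96.algT d hd1
  have hL : ∀ σ : ℝ, σ ≠ 0 → ∀ E, LyaAt d σ E (γ σ E) := fun σ hσ E =>
    H96.lyaAt_of_pr (h0 σ hσ E).1 (h0 σ hσ E).2
  have h1 := H93C.conT d γ hd1 hL
  obtain ⟨γ', Es, h0', hedge, -, -, hsol⟩ :=
    H93F.final3.{u} H93F.qmfT CL.H54.pbdT
      H93Z.fleT H93Z.sgxT H93Z.smsT
      H93Z.cdpT H93Z.upxT IR.H54.flqT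
      IR.H54.pieT H93F.pifT
      (fun σ => |σ| ^ (2 + 1 / 32 : ℝ)) d hd (fun δ hδ => QD.H93.qdfT d δ hd hδ)
  have hγ : ∀ σ : ℝ, σ ≠ 0 → ∀ E, γ' σ E = γ σ E := fun σ hσ E =>
    H42J.lya_unique (H96.lyaAt_of_pr (h0' σ hσ E).1 (h0' σ hσ E).2) (hL σ hσ E)
  have hcont : ∀ σ : ℝ, σ ≠ 0 → Continuous fun E => γ σ E := fun σ hσ =>
    continuous_iff_continuousAt.2 fun E =>
      (h1 (σ, E) hσ).comp (f := fun E : ℝ => (σ, E))
        (continuous_const.prodMk continuous_id).continuousAt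
  have heven : ∀ σ : ℝ, σ ≠ 0 → ∀ E, γ σ (-E) = γ σ E := fun σ hσ => H96C.lya_even hL hσ
  -- the edge
  have hex : ∀ σ : ℝ, ∃ E₁ : ℝ, σ ≠ 0 → (∃ E, γ σ E = 0) →
      0 ≤ E₁ ∧ γ σ E₁ = 0 ∧ γ σ (-E₁) = 0 ∧ ∀ E, E₁ < |E| → 0 < γ σ E := by
    intro σ
    by_cases hz : σ ≠ 0 ∧ ∃ E, γ σ E = 0
    · obtain ⟨E₁, hE₁⟩ := H96C.edge (fun E => (h0 σ hz.1 E).1) (hcont σ hz.1)
        (heven σ hz.1) ((h3 σ hz.1).1 hd) hz.2
      exact ⟨E₁, fun _ _ => hE₁⟩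
    · exact ⟨0, fun h h' => absurd ⟨h, h'⟩ hz⟩
  choose E₁ hE₁ using hex
  -- the Lyapunov exponent vanishes in the bulk
  have hbulk : ∀ a : ℝ, 0 < a → ∃ s₀ : ℝ, 0 < s₀ ∧ ∀ σ : ℝ, σ ≠ 0 → |σ| ≤ s₀ →
      (∀ E : ℝ, |E| ≤ 2 * d - a → γ σ E = 0) ∧
      ∀ (Ω : Type u) [MeasurableSpace Ω] (P : Measure Ω) [IsProbabilityMeasure P]
        (ξ : Site d → Ω → ℝ), (∀ y, Measurable (ξ y)) →
        (∀ y, P.map (ξ y) = gaussianReal 0 1) → iIndepFun ξ P → ∀ᵐ ω ∂P,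
          (∀ E ε : ℝ, 0 < ε → ∃ φ : L2 d, ‖φ‖ = 1 ∧ {x : Site d | φ x ≠ 0}.Finite ∧
            IsQuasi (fun y => σ * ξ y ω) ε E φ) ∧
          ∀ E : ℝ, |E| < 2 * d - a → ∀ φ : L2 d, IsEigen (fun y => σ * ξ y ω) E φ → φ = 0 := by
    intro a ha
    obtain ⟨s₀, hs₀, hfin⟩ := hf d (a / 2) hd (by linarith only [ha])
    refine ⟨s₀, hs₀, fun σ hσ hσs => ⟨fun E hE => ?_, fun Ω _ P _ ξ hm hlaw hind => ?_⟩⟩
    · by_contra hne
      have hpos : 0 < γ σ E := lt_of_le_of_ne (h0 σ hσ E).1 (Ne.symm hne)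
      -- a neighbourhood
      have hopen : IsOpen {E : ℝ | 0 < γ σ E} := isOpen_lt continuous_const (hcont σ hσ)
      obtain ⟨ρ, hρ, hρ'⟩ := Metric.isOpen_iff.1 hopen E hpos
      obtain ⟨r, hr⟩ : ∃ r, r = min (ρ / 2) (a / 4) := ⟨_, rfl⟩
      have hr0 : 0 < r := by rw [hr]; positivity
      have hrρ : r ≤ ρ / 2 := by rw [hr]; exact min_le_left _ _
      have hra : r ≤ a / 4 := by rw [hr]; exact min_le_right _ _
      have hsub : Set.Icc (E - r) (E + r) ⊆ {E | 0 < γ σ E} := by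
        intro E' hE'
        apply hρ'
        rw [Metric.mem_ball, Real.dist_eq, abs_lt]
        constructor
        · linarith only [hE'.1, hrρ, hρ]
        · linarith only [hE'.2, hrρ, hρ]
      -- a probability space
      obtain ⟨Ω, i1, P, i2, ξ, hm, hlaw, hind⟩ := prob_space.{u} d
      have h4 := hfin σ hσ hσs Ω P ξ hm hlaw hind
      have h5 := ((h3 σ hσ).2.2 Ω P ξ hm hlaw hind).2.1
      obtain ⟨ω, hω, hω'⟩ := (h4.and h5).exists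
      refine gamma_zero (V := fun y => σ * ξ y ω) hr0 (fun ε hε => hω.1 E ε hε)
        (fun E' hE' φ hφ => hω.2 E' ?_ φ hφ) (fun u w hw hu => hω' E r hsub u w hw hu)
      rw [abs_le] at hE
      rw [abs_lt]
      constructor
      · linarith only [hE'.1, hE.1, hra, ha]
      · linarith only [hE'.2, hE.2, hra, ha]
    · filter_upwards [hfin σ hσ hσs Ω P ξ hm hlaw hind] with ω hω
      exact ⟨hω.1, fun E hE => hω.2 E (by linarith only [hE, ha])⟩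
  obtain ⟨s₁, hs₁, hz1⟩ := hbulk 1 one_pos
  have hzero : ∀ σ : ℝ, σ ≠ 0 → |σ| ≤ s₁ → ∃ E, γ σ E = 0 := fun σ hσ hσs =>
    ⟨0, (hz1 σ hσ hσs).1 0 (by rw [abs_zero]; linarith only [hd3])⟩
  -- the critical coupling
  obtain ⟨σc, hσc0, hσc, hσc'⟩ := hcrit hd
  have hσcpos : 0 < σc := by
    rcases hσc0.lt_or_eq with h | h
    · exact h
    · exfalso
      obtain ⟨E, hE⟩ := hzero s₁ hs₁.ne' (by rw [abs_of_pos hs₁])
      have := hσc s₁ (by rw [← h, abs_of_pos hs₁]; exact hs₁) E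
      rw [hE] at this
      exact lt_irrefl _ this
  refine ⟨γ, σc, E₁, hσcpos, h0, fun σ hσ E => h1 (σ, E) hσ, hσc, hσc' hσcpos, ?_, fun a ha => ?_,
    fun σ hσ Ω _ P _ ξ hm hlaw hind => ?_⟩
  · obtain ⟨c, C, hc, hC, hcC⟩ := hedge (1 / 2) (by norm_num) (by norm_num)
    obtain ⟨c', hc'⟩ : ∃ c', c' = min c 1 := ⟨_, rfl⟩
    have hc'0 : 0 < c' := by rw [hc']; positivity
    refine ⟨min c' s₁, C + 6 / c' ^ 3, by positivity, by positivity, fun σ hσ hσc => ?_⟩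
    have hσc' : |σ| ≤ c' := hσc.trans (min_le_left _ _)
    have hσcc : |σ| ≤ c := hσc'.trans (by rw [hc']; exact min_le_left _ _)
    have hσ1 : |σ| ≤ 1 := hσc'.trans (by rw [hc']; exact min_le_right _ _)
    obtain ⟨hE0, hE1, -, -⟩ := hE₁ σ hσ (hzero σ hσ (hσc.trans (min_le_right _ _)))
    obtain ⟨g1, g2, -, -⟩ := hcC σ hσ hσcc
    have hw0 : LOC.window d c σ ≤ LOC.window d c' σ :=
      LOC.window_anti d hc'0 (by rw [hc']; exact min_le_left _ _)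
    have hw1 := window_cube d hc'0 (by rw [hc']; exact min_le_right _ _) hσ hσ1
    have hwpos : 0 < LOC.window d c σ := window_pos d hc hσ hσ1
    have hlt : E₁ σ < Es σ + LOC.window d c σ := by
      by_contra hcon
      push Not at hcon
      have h6 := (g2 (E₁ σ) (by rw [abs_of_nonneg hE0]; exact hcon)).1
      rw [hγ σ hσ, hE1, abs_of_nonneg hE0] at h6
      have h7 : 0 < c * Real.sqrt (min (E₁ σ - Es σ) 1) := by
        apply mul_pos hc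
        apply Real.sqrt_pos.2
        apply lt_min _ one_pos
        linarith only [hcon, hwpos]
      linarith only [h6, h7]
    have h8 : |σ| ^ 3 ≤ |σ| ^ (2 + 1 / (24 * d : ℝ)) := by
      rw [← Real.rpow_natCast]
      apply Real.rpow_le_rpow_of_exponent_ge (abs_pos.2 hσ) hσ1
      push_cast
      have : 1 / (24 * d : ℝ) ≤ 1 := by
        rw [div_le_iff₀ (by positivity)]
        linarith only [hd3]
      linarith only [this]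
    have h9 : 6 / c' ^ 3 * |σ| ^ 3 ≤ 6 / c' ^ 3 * |σ| ^ (2 + 1 / (24 * d : ℝ)) :=
      mul_le_mul_of_nonneg_left h8 (by positivity)
    have h10 := (abs_le.1 g1).2
    have h11 : (C + 6 / c' ^ 3) * |σ| ^ (2 + 1 / (24 * d : ℝ)) =
        C * |σ| ^ (2 + 1 / (24 * d : ℝ)) + 6 / c' ^ 3 * |σ| ^ (2 + 1 / (24 * d : ℝ)) := by ring
    rw [h11]
    linarith only [hlt, h10, hw0, hw1, h9]
  · obtain ⟨s₀, hs₀, hz⟩ := hbulk a ha
    refine ⟨min s₀ s₁, by positivity, fun σ hσ hσs => ?_⟩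
    obtain ⟨z1, z2⟩ := hz σ hσ (hσs.trans (min_le_left _ _))
    obtain ⟨hE0, hE1, hE2, hE3⟩ := hE₁ σ hσ (hzero σ hσ (hσs.trans (min_le_right _ _)))
    refine ⟨?_, hE1, hE2, z1, hE3, z2⟩
    by_contra hcon
    push Not at hcon
    have hpos := hE3 (2 * d - a) (lt_of_lt_of_le hcon (le_abs_self _))
    rw [z1 (2 * d - a) (le_of_eq (abs_of_nonneg (hE0.trans hcon.le)))] at hpos
    exact lt_irrefl _ hpos
  · obtain ⟨-, g2, g3, g4⟩ := (h3 σ hσ).2.2 Ω P ξ hm hlaw hind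
    refine ⟨g2, ?_, g3, g4⟩
    filter_upwards [hsol σ hσ Ω P ξ hm hlaw hind] with ω w3
    intro E ψ hψ hB hs
    have h4 := w3 E ψ hψ hB hs
    rw [hγ σ hσ] at h4
    exact h4

end Pool.Agent.EXT.H54
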