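import Pool.Agent.Helper54_EXT.Main
import Pool.Agent.Helper93_LCH.All
import Pool.Agent.Helper72_ANE.All

/-!
# The phase diagram: the assembly

From `ANE.FinStmt`, the Lyapunov exponent `γ(σ, E)` and the effective mobility edge: the critical
coupling `σc > 0`, the mobility edge `E₀(σ)`.
-/

set_option autoImplicit false

open MeasureTheory ProbabilityTheory Filter

open scoped ENNReal ComplexInnerProductSpace Topology

noncomputable section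

namespace Pool.Agent.EXT.H54

open Pool.Agent.Anderson Pool.Agent.Loc Pool.Agent.Helper54.Bal Pool.Agent.LE
open Pool.Agent.LE.CH.H93 (LocIn Exact)

universe u

variable {d : ℕ}

/-- `p` holds almost surely for the potential `σ ξ`, `ξ` independent standard Gaussians -/
def Almost.{v} (d : ℕ) (σ : ℝ) (p : (Site d → ℝ) → Prop) : Prop :=
  ∀ (Ω : Type v) [MeasurableSpace Ω] (P : Measure Ω) [IsProbabilityMeasure P]
    (ξ : Site d → Ω → ℝ), (∀ y, Measurable (ξ y)) → (∀ y, P.map (ξ y) = gaussianReal 0 1) →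
    iIndepFun ξ P → ∀ᵐ ω ∂P, p fun x => σ * ξ x ω

/-- the set `I` is contained in the spectrum -/
def InSpec (V : Site d → ℝ) (I : Set ℝ) : Prop :=
  ∀ E ∈ I, ∀ ε : ℝ, 0 < ε → ∃ φ : L2 d, ‖φ‖ = 1 ∧ {x : Site d | φ x ≠ 0}.Finite ∧ IsQuasi V ε E φ

/-- there are no eigenvalues in `I` -/
def NoEv (V : Site d → ℝ) (I : Set ℝ) : Prop :=
  ∀ E ∈ I, ∀ φ : L2 d, IsEigen V E φ → φ = 0

/-- the eigenvalues are dense in the open set `I` -/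
def EvDense (V : Site d → ℝ) (I : Set ℝ) : Prop :=
  ∀ E ∈ I, ∀ r : ℝ, 0 < r → ∃ E' : ℝ, |E' - E| < r ∧ ∃ φ : L2 d, φ ≠ 0 ∧ IsEigen V E' φ

theorem almost_spec (σ : ℝ) (hd : 1 ≤ d) (hσ : σ ≠ 0) :
    Almost.{u} d σ fun V => InSpec V Set.univ := by
  intro Ω _ P _ ξ hm hlaw hind
  have h2 := Pool.Agent.ANE.H72.spc Pool.Agent.ANE.H72.wey Pool.Agent.ANE.H72.flt d σ hd hσ
  rw [← Pool.Agent.Mob.H42.map_eq_PP hm hlaw hind σ] at h2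
  have hme : AEMeasurable (fun (ω : Ω) (y : Site d) => σ * ξ y ω) P :=
    (Pool.Agent.Mob.H42.measurable_W hm σ).aemeasurable
  filter_upwards [ae_of_ae_map hme h2] with ω h
  exact fun E _ ε hε => h E ε hε

theorem Almost.mono {σ : ℝ} {p q : (Site d → ℝ) → Prop} (h : Almost.{u} d σ p)
    (hpq : ∀ V, p V → q V) : Almost.{u} d σ q := by
  intro Ω _ P _ ξ hm hlaw hind
  filter_upwards [h Ω P ξ hm hlaw hind] with ω hω
  exact hpq _ hω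

theorem Almost.and {σ : ℝ} {p q : (Site d → ℝ) → Prop} (h : Almost.{u} d σ p)
    (h' : Almost.{u} d σ q) : Almost.{u} d σ fun V => p V ∧ q V := by
  intro Ω _ P _ ξ hm hlaw hind
  filter_upwards [h Ω P ξ hm hlaw hind, h' Ω P ξ hm hlaw hind] with ω hω hω'
  exact ⟨hω, hω'⟩

/-- pure point spectrum: the eigenvalues are dense in the spectrum -/
theorem ev_dense {V : Site d → ℝ} {I : Set ℝ} (hI : IsOpen I) (hloc : LocIn V I)
    (hsp : InSpec V I) : EvDense V I := by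
  intro E hE r hr
  obtain ⟨ρ, hρ, hρ'⟩ := Metric.isOpen_iff.1 hI E hE
  obtain ⟨s, hs⟩ : ∃ s, s = min (ρ / 2) (r / 2) := ⟨_, rfl⟩
  have hs0 : 0 < s := by rw [hs]; positivity
  have hsρ : s ≤ ρ / 2 := by rw [hs]; exact min_le_left _ _
  have hsr : s ≤ r / 2 := by rw [hs]; exact min_le_right _ _
  by_contra hcon
  push Not at hcon
  refine gamma_zero (V := V) hs0 (fun ε hε => hsp E hE ε hε) (fun E' hE' φ hφ => ?_)
    (hloc.1 E s fun E' hE' => hρ' ?_)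
  · by_contra hne
    refine hcon E' ?_ φ hne hφ
    rw [abs_lt]
    constructor
    · linarith only [hE'.1, hsr, hr]
    · linarith only [hE'.2, hsr, hr]
  · rw [Metric.mem_ball, Real.dist_eq, abs_lt]
    constructor
    · linarith only [hE'.1, hsρ, hρ]
    · linarith only [hE'.2, hsρ, hρ]

/-- THE PHASE DIAGRAM -/
theorem phase (hf : Pool.Agent.ANE.FinStmt.{u}) (d : ℕ) (hd : 3 ≤ d) :
    ∃ (σc : ℝ) (E₀ : ℝ → ℝ) (γ : ℝ → ℝ → ℝ), 0 < σc ∧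
    (∀ σ : ℝ, σc < |σ| → Almost.{u} d σ fun V =>
      LocIn V Set.univ ∧ InSpec V Set.univ ∧ EvDense V Set.univ) ∧
    (∀ σ : ℝ, σ ≠ 0 → 0 ≤ E₀ σ ∧ Almost.{u} d σ fun V =>
      LocIn V {E | E₀ σ < |E|} ∧ InSpec V Set.univ ∧ EvDense V {E | E₀ σ < |E|}) ∧
    (∀ a : ℝ, 0 < a → ∃ s : ℝ, 0 < s ∧ ∀ σ : ℝ, σ ≠ 0 → |σ| ≤ s → 2 * d - a ≤ E₀ σ ∧
      (∀ E : ℝ, |E| ≤ 2 * d - a → γ σ E = 0) ∧
      Almost.{u} d σ fun V => NoEv V {E | |E| < 2 * d - a}) ∧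
    (∃ c C : ℝ, 0 < c ∧ 0 < C ∧ ∀ σ : ℝ, σ ≠ 0 → |σ| ≤ c →
      E₀ σ ≤ 2 * d + watson d * σ ^ 2 + C * |σ| ^ (2 + 1 / (24 * d : ℝ))) ∧
    (∀ σ : ℝ, σ ≠ 0 → ∀ E : ℝ, 0 ≤ γ σ E ∧ ∀ ε : ℝ, 0 < ε →
      Tendsto (H93.pr d σ E (γ σ E + ε)) atTop (𝓝 0) ∧
      Tendsto (H93.pr d σ E (γ σ E - ε)) atTop (𝓝 1)) ∧
    (∀ σ : ℝ, σ ≠ 0 → ∀ E : ℝ, ContinuousAt (fun q : ℝ × ℝ => γ q.1 q.2) (σ, E)) ∧
    (∀ σ : ℝ, σc < |σ| → ∀ E : ℝ, 0 < γ σ E) ∧ (∃ E : ℝ, γ σc E = 0) ∧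
    (∀ σ : ℝ, σ ≠ 0 → (∀ E : ℝ, E₀ σ < |E| → 0 < γ σ E) ∧
      ((∃ E : ℝ, γ σ E = 0) → γ σ (E₀ σ) = 0 ∧ γ σ (-E₀ σ) = 0)) ∧
    ∀ σ : ℝ, σ ≠ 0 → Almost.{u} d σ fun V => Exact V (γ σ) ∧
      ∀ I : Set ℝ, IsOpen I → (LocIn V I ↔ volume {E | E ∈ I ∧ γ σ E = 0} = 0) := by
  have hd1 : 1 ≤ d := by omega
  have hd3 : (3 : ℝ) ≤ d := by exact_mod_cast hd
  obtain ⟨γ, σc, E₁, hσc, h0, h1, hc1, hc2, hup, hweak, -⟩ := ext hf d hd
  have hL : ∀ σ : ℝ, σ ≠ 0 → ∀ E, LyaAt d σ E (γ σ E) := fun σ hσ E =>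
    H96.lyaAt_of_pr (h0 σ hσ E).1 (h0 σ hσ E).2
  -- the exact statement for one `σ`
  have hmain : ∀ σ : ℝ, σ ≠ 0 → (∃ K : ℝ, ∀ E : ℝ, K < |E| → 0 < γ σ E) ∧
      Almost.{u} d σ fun V => Exact V (γ σ) ∧
        ∀ I : Set ℝ, IsOpen I → (LocIn V I ↔ volume {E | E ∈ I ∧ γ σ E = 0} = 0) := by
    intro σ hσ
    obtain ⟨γ', g0, -, gK, g4⟩ := CH.H93.mainT.{u} d hd1 σ hσ
    have hγ : γ' = γ σ := funext fun E =>
      H42J.lya_unique (H96.lyaAt_of_pr (g0 E).1 (g0 E).2) (hL σ hσ E)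
    rw [hγ] at gK g4
    refine ⟨gK hd, fun Ω _ P _ ξ hm hlaw hind => ?_⟩
    filter_upwards [g4 Ω P ξ hm hlaw hind] with ω hω
    exact ⟨hω.1, hω.2.1⟩
  have hcont : ∀ σ : ℝ, σ ≠ 0 → Continuous fun E => γ σ E := fun σ hσ =>
    continuous_iff_continuousAt.2 fun E =>
      (h1 σ hσ E).comp (f := fun E : ℝ => (σ, E))
        (continuous_const.prodMk continuous_id).continuousAt
  have heven : ∀ σ : ℝ, σ ≠ 0 → ∀ E, γ σ (-E) = γ σ E := fun σ hσ => H96C.lya_even hL hσ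
  -- the edge
  have hex : ∀ σ : ℝ, ∃ E₀ : ℝ, 0 ≤ E₀ ∧ (σ ≠ 0 → (∀ E : ℝ, E₀ < |E| → 0 < γ σ E) ∧
      ((∃ E : ℝ, γ σ E = 0) → γ σ E₀ = 0 ∧ γ σ (-E₀) = 0)) := by
    intro σ
    by_cases hσ : σ ≠ 0
    · by_cases hz : ∃ E, γ σ E = 0
      · obtain ⟨E₁, e1, e2, e3, e4⟩ := H96C.edge (fun E => (h0 σ hσ E).1) (hcont σ hσ)
          (heven σ hσ) (hmain σ hσ).1 hz
        exact ⟨E₁, e1, fun _ => ⟨e4, fun _ => ⟨e2, e3⟩⟩⟩
      · refine ⟨0, le_rfl, fun _ => ⟨fun E _ => ?_, fun h => absurd h hz⟩⟩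
        exact lt_of_le_of_ne (h0 σ hσ E).1 fun h => hz ⟨E, h.symm⟩
    · exact ⟨0, le_rfl, fun h => absurd h hσ⟩
  choose E₀ hE₀ hE₀' using hex
  -- localization where `γ > 0`
  have hloc : ∀ σ : ℝ, σ ≠ 0 → ∀ I : Set ℝ, IsOpen I → (∀ E ∈ I, 0 < γ σ E) →
      Almost.{u} d σ fun V => LocIn V I ∧ InSpec V Set.univ ∧ EvDense V I := by
    intro σ hσ I hI hpos
    refine ((hmain σ hσ).2.and (almost_spec σ hd1 hσ)).mono fun V hV => ?_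
    obtain ⟨⟨-, g⟩, hsp⟩ := hV
    have h2 : LocIn V I := by
      refine (g I hI).2 ?_
      have h3 : {E | E ∈ I ∧ γ σ E = 0} = ∅ := by
        ext E
        simp only [Set.mem_ofPred_eq, Set.mem_empty_iff_false, iff_false, not_and]
        exact fun hE => (hpos E hE).ne'
      rw [h3, measure_empty]
    exact ⟨h2, hsp, ev_dense hI h2 fun E _ ε hε => hsp E (Set.mem_univ E) ε hε⟩
  -- the two edges agree
  have hE₁ : ∀ a : ℝ, 0 < a → ∃ s : ℝ, 0 < s ∧ ∀ σ : ℝ, σ ≠ 0 → |σ| ≤ s →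
      E₀ σ = E₁ σ := by
    intro a ha
    obtain ⟨s, hs, hsσ⟩ := hweak 1 one_pos
    refine ⟨s, hs, fun σ hσ hσs => ?_⟩
    obtain ⟨f1, f2, -, f4, f5, -⟩ := hsσ σ hσ hσs
    have hz : ∃ E, γ σ E = 0 := ⟨E₁ σ, f2⟩
    have e1 := (hE₀' σ hσ).2 hz
    have e0 : 0 ≤ E₁ σ := by linarith only [f1, hd3]
    apply le_antisymm
    · by_contra hcon
      push Not at hcon
      have := f5 (E₀ σ) (lt_of_lt_of_le hcon (le_abs_self _))
      rw [e1.1] at this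
      exact lt_irrefl _ this
    · by_contra hcon
      push Not at hcon
      have := (hE₀' σ hσ).1 (E₁ σ) (lt_of_lt_of_le hcon (le_abs_self _))
      rw [f2] at this
      exact lt_irrefl _ this
  refine ⟨σc, E₀, γ, hσc, ?_, ?_, ?_, ?_, h0, h1, hc1, hc2, fun σ hσ => hE₀' σ hσ,
    fun σ hσ => (hmain σ hσ).2⟩
  · intro σ hσ
    have hσ0 : σ ≠ 0 := by
      rintro rfl
      rw [abs_zero] at hσ
      linarith only [hσ, hσc]
    exact hloc σ hσ0 Set.univ isOpen_univ fun E _ => hc1 σ hσ E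
  · intro σ hσ
    refine ⟨hE₀ σ, hloc σ hσ _ (isOpen_lt continuous_const continuous_abs) fun E hE => ?_⟩
    exact (hE₀' σ hσ).1 E hE
  · intro a ha
    obtain ⟨s, hs, hsσ⟩ := hweak a ha
    obtain ⟨s', hs', hsσ'⟩ := hE₁ a ha
    refine ⟨min s s', lt_min hs hs', fun σ hσ hσs => ?_⟩
    obtain ⟨f1, -, -, f4, -, f6⟩ := hsσ σ hσ (hσs.trans (min_le_left _ _))
    rw [hsσ' σ hσ (hσs.trans (min_le_right _ _))]
    refine ⟨f1, f4, fun Ω _ P _ ξ hm hlaw hind => ?_⟩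
    filter_upwards [f6 Ω P ξ hm hlaw hind] with ω hω
    exact fun E hE φ hφ => hω.2 E hE φ hφ
  · obtain ⟨c, C, hc, hC, hcC⟩ := hup
    obtain ⟨s', hs', hsσ'⟩ := hE₁ 1 one_pos
    refine ⟨min c s', C, lt_min hc hs', hC, fun σ hσ hσs => ?_⟩
    rw [hsσ' σ hσ (hσs.trans (min_le_right _ _))]
    exact hcC σ hσ (hσs.trans (min_le_left _ _))

end Pool.Agent.EXT.H54
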